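import Pool.Agent.helper33.SRMain

/-!
# MP_9c5d4e_an: uniqueness of the self-similar `p`-energy on the Sierpinski carpet

For every `p > 1`, two self-similar `p`-energies on the Sierpinski carpet have the same domain and
are proportional.
-/

namespace Pool.Agent.Results.MP_9c5d4e_an.EnergyUniqueness

open MeasureTheory Pool.Agent.SierpinskiCarpet

theorem result {K : Set (ℝ × ℝ)} (hK : IsCarpet K) {m : Measure K}
    (hm : IsSelfSimilarMeasure hK m) {p : ℝ} (hp : 1 < p) {ρ ρ' : ℝ} {F F' : Set (K → ℝ)}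
    {E E' : (K → ℝ) → ℝ} (h : IsSelfSimilarEnergy hK m p ρ F E)
    (h' : IsSelfSimilarEnergy hK m p ρ' F' E') :
    F' = F ∧ ∃ c : ℝ, 0 < c ∧ ∀ u ∈ F, E' u = c * E u :=
  (unique_energy_all hp hm h h').2

end Pool.Agent.Results.MP_9c5d4e_an.EnergyUniqueness
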